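import Mathlib

/-!
The exponents at which the share of bent iterative functions is small are very rare.
-/

open Filter Topology

namespace Pool.Agent.Results.MP_c28a60_co.RareExceptions

/-- Boolean functions in `n` variables, that is, maps from `F_2^n` to `F_2`. -/
abbrev BoolFun (n : ℕ) : Type := (Fin n → ZMod 2) → ZMod 2

/-- The Walsh-Hadamard transform of `f`: the integer
`W_f(y) = ∑_x (-1)^(f(x) + ⟨x,y⟩)`. -/
def walsh {n : ℕ} (f : BoolFun n) (y : Fin n → ZMod 2) : ℤ :=
  ∑ x : Fin n → ZMod 2, (-1 : ℤ) ^ (f x + ∑ i, x i * y i).val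

/-- `f` is bent: `|W_f(y)| = 2^(n/2)` for all `y` (used only for even `n`). -/
def IsBent {n : ℕ} (f : BoolFun n) : Prop := ∀ y, |walsh f y| = 2 ^ (n / 2)

/-- The dual of a bent function `f`: the Boolean function whose value at `y` is `0` if
`W_f(y) = 2^(n/2)` and `1` otherwise; see `walsh_eq_dual` for the defining property
`W_f(y) = 2^(n/2) (-1)^(dual f y)`. -/
def dual {n : ℕ} (f : BoolFun n) : BoolFun n :=
  fun y => if walsh f y = 2 ^ (n / 2) then 0 else 1

/-- The set `B_n` of bent functions in `n` variables. -/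
def bentSet (n : ℕ) : Set (BoolFun n) := {f | IsBent f}

/-- The restriction `g(a, b, ·)` of a Boolean function in `m + 2` variables. -/
def restr {m : ℕ} (g : BoolFun (m + 2)) (a b : ZMod 2) : BoolFun m :=
  fun x => g (Fin.cons a (Fin.cons b x))

/-- The set `BI_(m+2)` of bent iterative functions in `m + 2` variables: the four restrictions
`g(0,0,·), g(0,1,·), g(1,0,·), g(1,1,·)` are bent and their duals sum to the constant `1`. -/
def bentIterSet (m : ℕ) : Set (BoolFun (m + 2)) :=
  {g | IsBent (restr g 0 0) ∧ IsBent (restr g 0 1) ∧ IsBent (restr g 1 0) ∧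
    IsBent (restr g 1 1) ∧
    ∀ y, dual (restr g 0 0) y + dual (restr g 0 1) y + dual (restr g 1 0) y
      + dual (restr g 1 1) y = 1}

/-! ### Signs -/

/-- the sign of an element of `F_2` -/
def sg (a : ZMod 2) : ℤ := (-1 : ℤ) ^ a.val

lemma sg_zero : sg 0 = 1 := by decide
lemma sg_one : sg 1 = -1 := by decide
lemma sg_add (a b : ZMod 2) : sg (a + b) = sg a * sg b := by
  revert a b; decide
lemma sg_ne_zero (a : ZMod 2) : sg a ≠ 0 := by
  revert a; decide
lemma sg_inj {a b : ZMod 2} (h : sg a = sg b) : a = b := by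
  revert h; revert a b; decide
lemma sg_mul_self (a : ZMod 2) : sg a * sg a = 1 := by
  revert a; decide
lemma abs_sg (a : ZMod 2) : |sg a| = 1 := by
  revert a; decide

lemma zmod2_cases (a : ZMod 2) : a = 0 ∨ a = 1 := by
  revert a; decide

lemma walsh_def {n : ℕ} (f : BoolFun n) (y : Fin n → ZMod 2) :
    walsh f y = ∑ x : Fin n → ZMod 2, sg (f x) * sg (∑ i, x i * y i) := by
  unfold walsh
  refine Finset.sum_congr rfl fun x _ => ?_
  rw [← sg_add]; rfl

lemma char_sum {n : ℕ} (v : Fin n → ZMod 2) (hv : v ≠ 0) :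
    ∑ y : Fin n → ZMod 2, sg (∑ i, v i * y i) = 0 := by
  classical
  obtain ⟨j, hj⟩ : ∃ j, v j ≠ 0 := by
    by_contra h
    push Not at h
    exact hv (funext h)
  have hj1 : v j = 1 := by
    rcases zmod2_cases (v j) with h | h
    · exact absurd h hj
    · exact h
  have key : ∑ y : Fin n → ZMod 2, sg (∑ i, v i * y i)
      = ∑ y : Fin n → ZMod 2, sg (∑ i, v i * ((y + Pi.single j 1 : Fin n → ZMod 2)) i) :=
    (Equiv.sum_comp (Equiv.addRight (Pi.single j (1 : ZMod 2)))
      (fun y : Fin n → ZMod 2 => sg (∑ i, v i * y i))).symm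
  have h2 : ∀ y : Fin n → ZMod 2,
      sg (∑ i, v i * ((y + Pi.single j 1 : Fin n → ZMod 2)) i) = - sg (∑ i, v i * y i) := by
    intro y
    have : ∑ i, v i * ((y + Pi.single j (1 : ZMod 2) : Fin n → ZMod 2)) i
        = (∑ i, v i * y i) + 1 := by
      simp only [Pi.add_apply, mul_add, Finset.sum_add_distrib]
      congr 1
      rw [Finset.sum_eq_single j]
      · simp [hj1]
      · intro b _ hb
        simp [Pi.single_apply, hb]
      · simp
    rw [this, sg_add, sg_one]; ring
  rw [Finset.sum_congr rfl (fun y _ => h2 y), Finset.sum_neg_distrib] at key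
  omega

lemma char_sum_ite {n : ℕ} (x z : Fin n → ZMod 2) :
    ∑ y : Fin n → ZMod 2, sg (∑ i, x i * y i) * sg (∑ i, z i * y i)
      = if x = z then 2 ^ n else 0 := by
  have h : ∀ y : Fin n → ZMod 2,
      sg (∑ i, x i * y i) * sg (∑ i, z i * y i) = sg (∑ i, (x + z) i * y i) := by
    intro y
    rw [← sg_add]
    congr 1
    simp [add_mul, Finset.sum_add_distrib]
  rw [Finset.sum_congr rfl (fun y _ => h y)]
  by_cases hxz : x = z
  · subst hxz
    have hx : x + x = 0 := by
      funext i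
      have := zmod2_cases (x i)
      simp only [Pi.add_apply, Pi.zero_apply]
      rcases this with h | h <;> rw [h] <;> decide
    rw [hx]
    simp [sg_zero]
  · rw [if_neg hxz]
    apply char_sum
    intro h0
    apply hxz
    funext i
    have := congrFun h0 i
    simp only [Pi.add_apply, Pi.zero_apply] at this
    revert this
    rcases zmod2_cases (x i) with h1 | h1 <;> rcases zmod2_cases (z i) with h2 | h2 <;>
      rw [h1, h2] <;> decide

/-- Walsh inversion. -/
lemma walsh_inversion {n : ℕ} (f : BoolFun n) (z : Fin n → ZMod 2) :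
    ∑ y : Fin n → ZMod 2, walsh f y * sg (∑ i, z i * y i) = 2 ^ n * sg (f z) := by
  simp_rw [walsh_def, Finset.sum_mul]
  rw [Finset.sum_comm]
  have : ∀ x : Fin n → ZMod 2,
      ∑ y : Fin n → ZMod 2, sg (f x) * sg (∑ i, x i * y i) * sg (∑ i, z i * y i)
        = sg (f x) * (if x = z then 2 ^ n else 0) := by
    intro x
    rw [← char_sum_ite, Finset.mul_sum]
    exact Finset.sum_congr rfl fun y _ => by ring
  rw [Finset.sum_congr rfl (fun x _ => this x)]
  simp [mul_comm]

lemma walsh_injective {n : ℕ} {f g : BoolFun n} (h : ∀ y, walsh f y = walsh g y) : f = g := by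
  funext z
  have h1 := walsh_inversion f z
  have h2 := walsh_inversion g z
  simp_rw [h] at h1
  rw [h1] at h2
  have h3 : sg (f z) = sg (g z) := by
    have : (2 : ℤ) ^ n ≠ 0 := by positivity
    exact mul_left_cancel₀ this h2
  exact sg_inj h3

/-- The defining property of the dual of a bent function. -/
lemma walsh_eq_dual {n : ℕ} {f : BoolFun n} (hf : IsBent f) (y : Fin n → ZMod 2) :
    walsh f y = 2 ^ (n / 2) * (-1 : ℤ) ^ (dual f y).val := by
  have hy := hf y
  have hpos : (0 : ℤ) < 2 ^ (n / 2) := by positivity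
  unfold dual
  split_ifs with h
  · simp [h]
  · rcases abs_eq hpos.le |>.mp hy with h' | h'
    · exact absurd h' h
    · rw [h']
      have : (-1 : ℤ) ^ (1 : ZMod 2).val = -1 := by decide
      rw [this]; ring

lemma dual_injOn {n : ℕ} {f g : BoolFun n} (hf : IsBent f) (hg : IsBent g)
    (h : dual f = dual g) : f = g := by
  apply walsh_injective
  intro y
  rw [walsh_eq_dual hf, walsh_eq_dual hg, h]

lemma walsh_add_one {n : ℕ} (f : BoolFun n) (y : Fin n → ZMod 2) :
    walsh (f + 1) y = - walsh f y := by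
  rw [walsh_def, walsh_def, ← Finset.sum_neg_distrib]
  refine Finset.sum_congr rfl fun x _ => ?_
  simp only [Pi.add_apply, Pi.one_apply, sg_add, sg_one]
  ring

lemma isBent_add_one {n : ℕ} {f : BoolFun n} (hf : IsBent f) : IsBent (f + 1) := by
  intro y
  rw [walsh_add_one, abs_neg]
  exact hf y

lemma dual_add_one {n : ℕ} {f : BoolFun n} (hf : IsBent f) (y : Fin n → ZMod 2) :
    dual (f + 1) y = dual f y + 1 := by
  have hpos : (0 : ℤ) < 2 ^ (n / 2) := by positivity
  have h1 := walsh_eq_dual (isBent_add_one hf) y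
  have h2 := walsh_eq_dual hf y
  rw [walsh_add_one, h2] at h1
  have h3 : sg (dual (f + 1) y) = sg (dual f y + 1) := by
    rw [sg_add, sg_one]
    have : (2 : ℤ) ^ (n / 2) * sg (dual (f + 1) y) = 2 ^ (n / 2) * (sg (dual f y) * -1) := by
      unfold sg
      linarith
    exact mul_left_cancel₀ hpos.ne' this
  exact sg_inj h3

/-- Adding a linear function shifts the Walsh transform. -/
lemma walsh_add_linear {n : ℕ} (f : BoolFun n) (a y : Fin n → ZMod 2) :
    walsh (fun x => f x + ∑ i, x i * a i) y = walsh f (a + y) := by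
  rw [walsh_def, walsh_def]
  refine Finset.sum_congr rfl fun x _ => ?_
  rw [sg_add, mul_assoc, ← sg_add]
  congr 2
  simp [mul_add, Finset.sum_add_distrib]

lemma isBent_add_linear {n : ℕ} {f : BoolFun n} (hf : IsBent f) (a : Fin n → ZMod 2) :
    IsBent (fun x => f x + ∑ i, x i * a i) := by
  intro y
  rw [walsh_add_linear]
  exact hf _

/-- Sums over `F_2^(m+2)` split into four sums over `F_2^m`. -/
lemma sum_cons_cons {m : ℕ} (F : (Fin (m + 2) → ZMod 2) → ℤ) :
    ∑ x : Fin (m + 2) → ZMod 2, F x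
      = ∑ a : ZMod 2, ∑ b : ZMod 2, ∑ x : Fin m → ZMod 2, F (Fin.cons a (Fin.cons b x)) := by
  rw [← Equiv.sum_comp (Fin.consEquiv (fun _ : Fin (m + 2) => ZMod 2)) F]
  rw [Fintype.sum_prod_type]
  refine Finset.sum_congr rfl fun a _ => ?_
  rw [← Equiv.sum_comp (Fin.consEquiv (fun _ : Fin (m + 1) => ZMod 2))]
  rw [Fintype.sum_prod_type]
  rfl

lemma bent_step {k : ℕ} {f : BoolFun (2 * k)} (hf : IsBent f) :
    IsBent (fun x : Fin (2 * k + 2) → ZMod 2 =>
      x 0 * x 1 + f (fun i => x i.succ.succ) : BoolFun (2 * k + 2)) := by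
  intro y
  have hw : walsh (fun x : Fin (2 * k + 2) → ZMod 2 =>
      x 0 * x 1 + f (fun i => x i.succ.succ) : BoolFun (2 * k + 2)) y
      = (∑ a : ZMod 2, ∑ b : ZMod 2, sg (a * b + a * y 0 + b * y 1)) *
        walsh f (fun i => y i.succ.succ) := by
    rw [walsh_def, sum_cons_cons, Finset.sum_mul]
    refine Finset.sum_congr rfl fun a _ => ?_
    rw [Finset.sum_mul]
    refine Finset.sum_congr rfl fun b _ => ?_
    rw [walsh_def, Finset.mul_sum]
    refine Finset.sum_congr rfl fun x _ => ?_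
    rw [← sg_add, ← sg_add, ← sg_add]
    congr 1
    rw [Fin.sum_univ_succ, Fin.sum_univ_succ]
    simp only [Fin.cons_zero, Fin.cons_succ, Fin.succ_zero_eq_one]
    have h1 : (Fin.cons a (Fin.cons b x) : Fin (2 * k + 2) → ZMod 2) 1 = b := by
      rw [← Fin.succ_zero_eq_one, Fin.cons_succ, Fin.cons_zero]
    rw [h1]
    ring
  rw [hw, abs_mul, hf]
  have h2 : ∀ c d : ZMod 2, |∑ a : ZMod 2, ∑ b : ZMod 2, sg (a * b + a * c + b * d)| = 2 := by
    decide
  rw [h2]
  have h3 : (2 * k + 2) / 2 = 2 * k / 2 + 1 := by omega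
  rw [h3, pow_succ]
  ring

/-- There is a bent function in every even number of variables. -/
lemma exists_bent (k : ℕ) : ∃ f : BoolFun (2 * k), IsBent f := by
  induction k with
  | zero =>
    refine ⟨fun _ => 0, fun y => ?_⟩
    have : walsh (fun _ => 0 : BoolFun (2 * 0)) y = 1 := by
      rw [walsh_def]
      simp [sg_zero]
    rw [this]
    simp
  | succ k ih =>
    obtain ⟨f, hf⟩ := ih
    exact ⟨_, bent_step hf⟩

lemma finite_all {n : ℕ} (s : Set (BoolFun n)) : s.Finite := Set.toFinite s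

/-- `|B_(2k)| ≥ 2^(2k)`. -/
lemma card_bentSet_ge (k : ℕ) : 2 ^ (2 * k) ≤ (bentSet (2 * k)).ncard := by
  obtain ⟨f, hf⟩ := exists_bent k
  have hinj : Function.Injective
      (fun a : Fin (2 * k) → ZMod 2 => (fun x => f x + ∑ i, x i * a i : BoolFun (2 * k))) := by
    intro a b hab
    funext j
    have := congrFun hab (Pi.single j 1)
    simpa [Pi.single_apply, Finset.sum_ite_eq] using this
  have h1 : (Set.range
      (fun a : Fin (2 * k) → ZMod 2 =>
        (fun x => f x + ∑ i, x i * a i : BoolFun (2 * k)))).ncard = 2 ^ (2 * k) := by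
    rw [← Set.image_univ, Set.ncard_image_of_injective _ hinj, Set.ncard_univ]
    simp
  rw [← h1]
  apply Set.ncard_le_ncard _ (finite_all _)
  rintro _ ⟨a, rfl⟩
  exact isBent_add_linear hf a

/-- The function in `m + 2` variables with prescribed restrictions. -/
def glue {m : ℕ} (f0 f1 f2 f3 : BoolFun m) : BoolFun (m + 2) :=
  fun x => if x 0 = 0 then (if x 1 = 0 then f0 (fun i => x i.succ.succ)
      else f1 (fun i => x i.succ.succ))
    else (if x 1 = 0 then f2 (fun i => x i.succ.succ) else f3 (fun i => x i.succ.succ))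

lemma cons_cons_one {m : ℕ} (a b : ZMod 2) (x : Fin m → ZMod 2) :
    (Fin.cons a (Fin.cons b x) : Fin (m + 2) → ZMod 2) 1 = b := by
  rw [← Fin.succ_zero_eq_one, Fin.cons_succ, Fin.cons_zero]

lemma restr_glue {m : ℕ} (f0 f1 f2 f3 : BoolFun m) :
    restr (glue f0 f1 f2 f3) 0 0 = f0 ∧ restr (glue f0 f1 f2 f3) 0 1 = f1 ∧
    restr (glue f0 f1 f2 f3) 1 0 = f2 ∧ restr (glue f0 f1 f2 f3) 1 1 = f3 := by
  refine ⟨?_, ?_, ?_, ?_⟩ <;> funext x <;>
    simp only [restr, glue, Fin.cons_zero, cons_cons_one, Fin.cons_succ] <;> simp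

/-- `|B_m|^2 ≤ |BI_(m+2)|`. -/
lemma card_bentIter_ge (m : ℕ) : (bentSet m).ncard ^ 2 ≤ (bentIterSet m).ncard := by
  rw [sq, ← Set.ncard_prod]
  apply Set.ncard_le_ncard_of_injOn
    (fun p : BoolFun m × BoolFun m => glue p.1 p.1 p.2 (p.2 + 1))
  · rintro ⟨f, h⟩ ⟨hf, hh⟩
    obtain ⟨e0, e1, e2, e3⟩ := restr_glue f f h (h + 1)
    refine ⟨?_, ?_, ?_, ?_, ?_⟩
    · rw [e0]; exact hf
    · rw [e1]; exact hf
    · rw [e2]; exact hh
    · rw [e3]; exact isBent_add_one hh
    · intro y
      rw [e0, e1, e2, e3, dual_add_one hh]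
      rcases zmod2_cases (dual f y) with h1 | h1 <;> rcases zmod2_cases (dual h y) with h2 | h2 <;>
        rw [h1, h2] <;> decide
  · rintro ⟨f, h⟩ _ ⟨f', h'⟩ _ heq
    simp only at heq
    have e := restr_glue f f h (h + 1)
    have e' := restr_glue f' f' h' (h' + 1)
    rw [heq] at e
    have h1 : f = f' := e.1.symm.trans e'.1
    have h2 : h = h' := e.2.2.1.symm.trans e'.2.2.1
    rw [h1, h2]


/-- `|B_m| ≤ |B_(m+2)|` for even `m`. -/
lemma card_bentSet_mono (k : ℕ) :
    (bentSet (2 * k)).ncard ≤ (bentSet (2 * k + 2)).ncard := by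
  apply Set.ncard_le_ncard_of_injOn (fun f : BoolFun (2 * k) =>
    (fun x : Fin (2 * k + 2) → ZMod 2 => x 0 * x 1 + f (fun i => x i.succ.succ) :
      BoolFun (2 * k + 2)))
  · intro f hf
    exact bent_step hf
  · intro f _ g _ h
    funext x
    have := congrFun h (Fin.cons 0 (Fin.cons 0 x))
    simpa [Fin.cons_zero, cons_cons_one, Fin.cons_succ] using this

/-- the double logarithm `log log |B_(2k)|` -/
noncomputable def bb (k : ℕ) : ℝ := Real.logb 2 (Real.logb 2 ((bentSet (2 * k)).ncard : ℝ))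

lemma card_real_ge {k : ℕ} (hk : 1 ≤ k) : (4 : ℝ) ≤ ((bentSet (2 * k)).ncard : ℝ) := by
  have h1 : 2 ^ (2 * k) ≤ (bentSet (2 * k)).ncard := card_bentSet_ge k
  have h2 : 2 ^ 2 ≤ 2 ^ (2 * k) := Nat.pow_le_pow_right (by norm_num) (by omega)
  have : 4 ≤ (bentSet (2 * k)).ncard := by omega
  exact_mod_cast this

lemma logb_four : Real.logb 2 4 = 2 := by
  rw [show (4 : ℝ) = 2 ^ (2 : ℕ) by norm_num, Real.logb_pow,
    Real.logb_self_eq_one (by norm_num)]; norm_num

lemma log_card_ge {k : ℕ} (hk : 1 ≤ k) : 2 ≤ Real.logb 2 ((bentSet (2 * k)).ncard : ℝ) := by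
  have := Real.logb_le_logb_of_le (b := (2 : ℝ)) (by norm_num) (by norm_num) (card_real_ge hk)
  rwa [logb_four] at this

lemma bb_ge_one {k : ℕ} (hk : 1 ≤ k) : 1 ≤ bb k := by
  unfold bb
  have := Real.logb_le_logb_of_le (b := (2 : ℝ)) (by norm_num) (by norm_num) (log_card_ge hk)
  rwa [Real.logb_self_eq_one (b := (2 : ℝ)) (by norm_num)] at this

lemma bb_mono {k : ℕ} (hk : 1 ≤ k) : bb k ≤ bb (k + 1) := by
  unfold bb
  have h0 := card_real_ge hk
  have h1 : ((bentSet (2 * k)).ncard : ℝ) ≤ ((bentSet (2 * (k + 1))).ncard : ℝ) := by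
    exact_mod_cast card_bentSet_mono k
  apply Real.logb_le_logb_of_le (by norm_num)
  · have := log_card_ge hk; linarith
  · exact Real.logb_le_logb_of_le (by norm_num) (by linarith) h1

lemma bb_le {k : ℕ} (hk : 1 ≤ k) : bb k ≤ 2 * k := by
  unfold bb
  have h0 := card_real_ge hk
  have h1 : (bentSet (2 * k)).ncard ≤ 2 ^ (2 ^ (2 * k)) := by
    calc (bentSet (2 * k)).ncard ≤ (Set.univ : Set (BoolFun (2 * k))).ncard :=
          Set.ncard_le_ncard (Set.subset_univ _) (finite_all _)
      _ = 2 ^ (2 ^ (2 * k)) := by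
          rw [Set.ncard_univ]
          simp
  have h2 : ((bentSet (2 * k)).ncard : ℝ) ≤ (2 : ℝ) ^ (2 ^ (2 * k) : ℕ) := by exact_mod_cast h1
  have h3 : Real.logb 2 ((bentSet (2 * k)).ncard : ℝ) ≤ (2 : ℝ) ^ (2 * k) := by
    have := Real.logb_le_logb_of_le (b := (2 : ℝ)) (by norm_num) (by linarith) h2
    rw [Real.logb_pow, Real.logb_self_eq_one (by norm_num), mul_one] at this
    exact_mod_cast this
  have h4 := log_card_ge hk
  have := Real.logb_le_logb_of_le (b := (2 : ℝ)) (by norm_num) (by linarith) h3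
  rw [Real.logb_pow, Real.logb_self_eq_one (by norm_num), mul_one] at this
  exact_mod_cast this

/-- `log log |BI_(2k+2)| ≥ 1 + log log |B_(2k)|`. -/
lemma loglog_bentIter_ge {k : ℕ} (hk : 1 ≤ k) :
    1 + bb k ≤ Real.logb 2 (Real.logb 2 ((bentIterSet (2 * k)).ncard : ℝ)) := by
  unfold bb
  have h0 := card_real_ge hk
  have h1 : ((bentSet (2 * k)).ncard : ℝ) ^ 2 ≤ ((bentIterSet (2 * k)).ncard : ℝ) := by
    exact_mod_cast card_bentIter_ge (2 * k)
  have h2 : 2 * Real.logb 2 ((bentSet (2 * k)).ncard : ℝ)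
      ≤ Real.logb 2 ((bentIterSet (2 * k)).ncard : ℝ) := by
    have := Real.logb_le_logb_of_le (b := (2 : ℝ)) (by norm_num) (by positivity) h1
    rwa [Real.logb_pow] at this
  have h3 := log_card_ge hk
  have := Real.logb_le_logb_of_le (b := (2 : ℝ)) (by norm_num) (by linarith) h2
  rwa [Real.logb_mul (by norm_num) (by linarith), Real.logb_self_eq_one (by norm_num)] at this

/-- The even integer `n = 2k + 2 ≥ 4` is `ε`-exceptional: `log log |BI_n| ≤ (1-ε) log log |B_n|`. -/
def Exceptional (ε : ℝ) (k : ℕ) : Prop :=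
  Real.logb 2 (Real.logb 2 ((bentIterSet (2 * k)).ncard : ℝ)) ≤
    (1 - ε) * Real.logb 2 (Real.logb 2 ((bentSet (2 * k + 2)).ncard : ℝ))

open Classical in
lemma growth {ε : ℝ} (h0 : 0 < ε) (h1 : ε < 1) (K : ℕ) :
    (1 / (1 - ε)) ^ (((Finset.range K).filter (fun k => Exceptional ε (k + 1))).card)
      ≤ bb (K + 1) := by
  have hpos : 0 < 1 - ε := by linarith
  have hge : 1 ≤ 1 / (1 - ε) := by rw [le_div_iff₀ hpos]; linarith
  induction K with
  | zero => simpa using bb_ge_one (le_refl 1)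
  | succ K ih =>
    rw [Finset.range_add_one, Finset.filter_insert]
    split_ifs with h
    · rw [Finset.card_insert_of_notMem (by simp), pow_succ]
      have h2 : 1 + bb (K + 1) ≤ (1 - ε) * bb (K + 1 + 1) :=
        le_trans (loglog_bentIter_ge (by omega)) h
      have h3 : bb (K + 1) ≤ (1 - ε) * bb (K + 1 + 1) := by linarith
      rw [mul_one_div, div_le_iff₀ hpos]
      calc (1 / (1 - ε)) ^ ((Finset.range K).filter (fun k => Exceptional ε (k + 1))).card
          ≤ bb (K + 1) := ih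
        _ ≤ (1 - ε) * bb (K + 1 + 1) := h3
        _ = bb (K + 1 + 1) * (1 - ε) := by ring
    · exact le_trans ih (bb_mono (by omega))

/-- For every `0 < ε < 1` and every `x ≥ 1`, the number of even integers `n = 2k + 2` with
`4 ≤ n ≤ x` and `log log |BI_n| ≤ (1-ε) log log |B_n|` is at most `log x / log (1/(1-ε))`. -/
theorem result (ε : ℝ) (h0 : 0 < ε) (h1 : ε < 1) (x : ℕ) (hx : 1 ≤ x) :
    (({k : ℕ | 1 ≤ k ∧ 2 * k + 2 ≤ x ∧
        Real.logb 2 (Real.logb 2 ((bentIterSet (2 * k)).ncard : ℝ)) ≤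
          (1 - ε) * Real.logb 2 (Real.logb 2 ((bentSet (2 * k + 2)).ncard : ℝ))}.ncard : ℕ) : ℝ)
      ≤ Real.log x / Real.log (1 / (1 - ε)) := by
  classical
  have hpos : 0 < 1 - ε := by linarith
  have hgt : 1 < 1 / (1 - ε) := by rw [lt_div_iff₀ hpos]; linarith
  have hlog : 0 < Real.log (1 / (1 - ε)) := Real.log_pos hgt
  set K := (x - 2) / 2 with hK
  set F := (Finset.range K).filter (fun k => Exceptional ε (k + 1)) with hF
  have hsub : {k : ℕ | 1 ≤ k ∧ 2 * k + 2 ≤ x ∧
        Real.logb 2 (Real.logb 2 ((bentIterSet (2 * k)).ncard : ℝ)) ≤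
          (1 - ε) * Real.logb 2 (Real.logb 2 ((bentSet (2 * k + 2)).ncard : ℝ))}
      ⊆ ((F.image (fun k => k + 1) : Finset ℕ) : Set ℕ) := by
    rintro k ⟨hk1, hk2, hk3⟩
    rw [Finset.mem_coe, Finset.mem_image]
    refine ⟨k - 1, ?_, by omega⟩
    rw [hF, Finset.mem_filter, Finset.mem_range]
    refine ⟨by omega, ?_⟩
    rw [show k - 1 + 1 = k by omega]
    exact hk3
  have hcard : ({k : ℕ | 1 ≤ k ∧ 2 * k + 2 ≤ x ∧
        Real.logb 2 (Real.logb 2 ((bentIterSet (2 * k)).ncard : ℝ)) ≤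
          (1 - ε) * Real.logb 2 (Real.logb 2 ((bentSet (2 * k + 2)).ncard : ℝ))}.ncard)
      ≤ F.card := by
    calc _ ≤ ((F.image (fun k => k + 1) : Finset ℕ) : Set ℕ).ncard :=
          Set.ncard_le_ncard hsub (Finset.finite_toSet _)
      _ = (F.image (fun k => k + 1)).card := Set.ncard_coe_finset _
      _ ≤ F.card := Finset.card_image_le
  have hgrow := growth h0 h1 K
  rw [← hF] at hgrow
  have hxr : (1 : ℝ) ≤ x := by exact_mod_cast hx
  have hle : (1 / (1 - ε)) ^ F.card ≤ (x : ℝ) := by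
    by_cases hK0 : K = 0
    · have : F = ∅ := by rw [hF, hK0]; simp
      rw [this]; simpa using hxr
    · refine le_trans hgrow (le_trans (bb_le (by omega)) ?_)
      have : 2 * (K + 1) ≤ x := by omega
      exact_mod_cast this
  have h3 := Real.log_le_log (by positivity) hle
  rw [Real.log_pow] at h3
  rw [le_div_iff₀ hlog]
  calc _ ≤ (F.card : ℝ) * Real.log (1 / (1 - ε)) := by
        apply mul_le_mul_of_nonneg_right _ hlog.le
        exact_mod_cast hcard
    _ ≤ Real.log x := h3

end Pool.Agent.Results.MP_c28a60_co.RareExceptions
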